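import Pool.Agent.Y554.NE.Stm

/-!
Properties of the one-layer bound for the chain of annuli.
-/

set_option autoImplicit false

namespace Pool.Agent.Y180.NE

open Pool.Agent.Y554.SN Pool.Agent.Y554.NE

/-- the order of the radii -/
lemma B_order (n : ℕ) (c : ℤ × ℤ) {r D : ℕ} (hrD : r ≤ D) :
    r ≤ B1 n c r D ∧ B1 n c r D ≤ B2 n c r D ∧ B2 n c r D ≤ D := by
  have h : b1 n c ≤ b2 n c := by
    unfold b1 b2
    have := min_le_max (a := |c.1|) (b := |c.2|)
    omega
  unfold B1 B2
  omega

/-- the bound as an exponential -/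
lemma q1_eq (n : ℕ) (c : ℤ × ℤ) {r D : ℕ} (hr : 1 ≤ r) (hrD : r ≤ D) :
    q1 n c r D = Real.exp (5 / 4 * Real.log r - 1 / 3 * Real.log (B1 n c r D) -
      7 / 12 * Real.log (B2 n c r D) - 1 / 3 * Real.log D) := by
  obtain ⟨h1, h2, h3⟩ := B_order n c hrD
  have p0 : (0 : ℝ) < r := by exact_mod_cast hr
  have p1 : (0 : ℝ) < B1 n c r D := by exact_mod_cast hr.trans h1
  have p2 : (0 : ℝ) < B2 n c r D := by exact_mod_cast (hr.trans h1).trans h2
  have p3 : (0 : ℝ) < D := by exact_mod_cast hr.trans hrD
  have hq : 0 < qc n c r D := by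
    unfold qc
    positivity
  unfold q1
  rw [Real.rpow_def_of_pos hq]
  congr 1
  unfold qc
  rw [Real.log_mul (by positivity) (by positivity), Real.log_mul (by positivity) (by positivity),
    Real.log_rpow (by positivity), Real.log_rpow (by positivity), Real.log_rpow (by positivity),
    Real.log_div p0.ne' p1.ne', Real.log_div p1.ne' p2.ne', Real.log_div p2.ne' p3.ne']
  ring

theorem q1p : S_Q1 := by
  refine ⟨?_, ?_, ?_, ?_⟩
  · intro n c r s D hr hrs hsD
    rw [q1_eq n c hr hrs, q1_eq n c (hr.trans hrs) hsD, q1_eq n c hr (hrs.trans hsD), ← Real.exp_add]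
    congr 1
    have key : ∀ b : ℕ, Real.log ((min s (max r b) : ℕ) : ℝ) + Real.log ((min D (max s b) : ℕ) : ℝ) =
        Real.log ((min D (max r b) : ℕ) : ℝ) + Real.log s := by
      intro b
      rcases le_total b s with hb | hb
      · have e1 : min s (max r b) = min D (max r b) := by omega
        have e2 : min D (max s b) = s := by omega
        rw [e1, e2]
      · have e1 : min s (max r b) = s := by omega
        have e2 : min D (max s b) = min D (max r b) := by omega
        rw [e1, e2, add_comm]
    have k1 := key (b1 n c)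
    have k2 := key (b2 n c)
    unfold B1 B2
    linarith
  · intro n c r D hr hrD
    rw [q1_eq n c hr hrD]
    refine ⟨Real.exp_pos _, ?_⟩
    rw [Real.exp_le_one_iff]
    obtain ⟨h1, h2, h3⟩ := B_order n c hrD
    have p0 : (0 : ℝ) < r := by exact_mod_cast hr
    have l1 : Real.log r ≤ Real.log (B1 n c r D) := Real.log_le_log p0 (by exact_mod_cast h1)
    have l2 : Real.log r ≤ Real.log (B2 n c r D) :=
      Real.log_le_log p0 (by exact_mod_cast h1.trans h2)
    have l3 : Real.log r ≤ Real.log D := Real.log_le_log p0 (by exact_mod_cast hrD)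
    linarith
  · intro n c r D M hr hrD hM hDM
    rw [q1_eq n c hr hrD]
    obtain ⟨h1, h2, h3⟩ := B_order n c hrD
    have p0 : (0 : ℝ) < r := by exact_mod_cast hr
    have p1 : (0 : ℝ) < B1 n c r D := by exact_mod_cast hr.trans h1
    have p2 : (0 : ℝ) < B2 n c r D := by exact_mod_cast (hr.trans h1).trans h2
    have p3 : (0 : ℝ) < D := by exact_mod_cast hr.trans hrD
    have pM : (0 : ℝ) < M := by exact_mod_cast hM
    have eM : (M : ℝ) ^ 2 = Real.exp (2 * Real.log M) := by
      rw [two_mul, Real.exp_add, Real.exp_log pM, sq]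
    rw [eM, ← Real.exp_add, Real.one_le_exp_iff]
    have l1 : Real.log (B1 n c r D) ≤ Real.log D :=
      Real.log_le_log p1 (by exact_mod_cast h2.trans h3)
    have l2 : Real.log (B2 n c r D) ≤ Real.log D := Real.log_le_log p2 (by exact_mod_cast h3)
    have l3 : Real.log D ≤ Real.log M + Real.log r := by
      rw [← Real.log_mul pM.ne' p0.ne']
      exact Real.log_le_log p3 (by exact_mod_cast hDM)
    have l4 : 0 ≤ Real.log M := Real.log_nonneg (by exact_mod_cast hM)
    linarith
  · intro n c c' r D hr hrD hc1 hc2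
    rw [q1_eq n c hr hrD, q1_eq n c' hr hrD]
    obtain ⟨h1, h2, h3⟩ := B_order n c hrD
    obtain ⟨h1', h2', h3'⟩ := B_order n c' hrD
    have p1 : (0 : ℝ) < B1 n c r D := by exact_mod_cast hr.trans h1
    have p2 : (0 : ℝ) < B2 n c r D := by exact_mod_cast (hr.trans h1).trans h2
    have p1' : (0 : ℝ) < B1 n c' r D := by exact_mod_cast hr.trans h1'
    have p2' : (0 : ℝ) < B2 n c' r D := by exact_mod_cast (hr.trans h1').trans h2'
    have a1 : |c.1| ≤ |c'.1| + 2 * r := by
      have := abs_sub_abs_le_abs_sub c.1 c'.1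
      linarith
    have a2 : |c.2| ≤ |c'.2| + 2 * r := by
      have := abs_sub_abs_le_abs_sub c.2 c'.2
      linarith
    have b1le : b1 n c' ≤ b1 n c + 2 * r := by
      unfold b1
      omega
    have b2le : b2 n c' ≤ b2 n c + 2 * r := by
      unfold b2
      omega
    have B1le : B1 n c' r D ≤ 3 * B1 n c r D := by
      unfold B1
      omega
    have B2le : B2 n c' r D ≤ 3 * B2 n c r D := by
      unfold B2
      omega
    have l1 : Real.log (B1 n c' r D) ≤ Real.log 3 + Real.log (B1 n c r D) := by
      rw [← Real.log_mul (by norm_num) p1.ne']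
      exact Real.log_le_log p1' (by exact_mod_cast B1le)
    have l2 : Real.log (B2 n c' r D) ≤ Real.log 3 + Real.log (B2 n c r D) := by
      rw [← Real.log_mul (by norm_num) p2.ne']
      exact Real.log_le_log p2' (by exact_mod_cast B2le)
    have l3 : Real.log 3 ≤ Real.log 8 := Real.log_le_log (by norm_num) (by norm_num)
    have l4 : 0 ≤ Real.log 3 := Real.log_nonneg (by norm_num)
    have e8 : (8 : ℝ) = Real.exp (Real.log 8) := (Real.exp_log (by norm_num)).symm
    rw [e8, ← Real.exp_add, Real.exp_le_exp]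
    linarith

end Pool.Agent.Y180.NE
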